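import Mathlib
import Pool.Agent.H20.RF4

namespace Pool.Agent.Results.MP_514792_al.Exists

open Pool.Agent.H20.RFG

theorem result : ∃ (G : Type) (_ : Group G) (S : Finset G),
    Subgroup.closure (S : Set G) = ⊤ ∧ ResFin G ∧
    (∀ d : ℕ, 1 ≤ d → Prec (fun n => (n : ℝ) ^ d) (fun n => rf (S : Set G) n) ∧
      ¬ Prec (fun n => rf (S : Set G) n) (fun n => (n : ℝ) ^ d)) ∧
    Prec (fun n => rf (S : Set G) n) (fun n => Real.exp n) ∧
    ¬ Prec (fun n => Real.exp n) (fun n => rf (S : Set G) n) :=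
  intermediate

end Pool.Agent.Results.MP_514792_al.Exists
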